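import Pool.Agent.H500.AS.Stm

/-!
# Project AS (helper500), part 8: bounded conductor (`S_Mod`)
-/

set_option autoImplicit false
set_option linter.unusedSectionVars false

namespace Pool.Agent.H662.AS.Mod

open NumberField IsDedekindDomain
open Pool.Agent.H500.HC (InRay IsRayChar TotPos)

section ring
variable {R : Type} [CommRing R]

/-- successive approximation of an `N`-th root -/
theorem root_step (N a : ℕ) (ha : 2 ≤ a) (u : R) (hu : (N : R) ^ (a + 1) ∣ u - 1) (j : ℕ) :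
    ∃ y : R, (N : R) ^ a ∣ y - 1 ∧ (N : R) ^ (a + 1 + j) ∣ y ^ N - u := by
  induction j with
  | zero =>
    refine ⟨1, by rw [sub_self]; exact dvd_zero _, ?_⟩
    rw [one_pow, add_zero, ← neg_sub]
    exact (dvd_neg).2 hu
  | succ j ih =>
    obtain ⟨y, hy, t, ht⟩ := ih
    refine ⟨y + -((N : R) ^ (a + j) * t), ?_, ?_⟩
    · have e : y + -((N : R) ^ (a + j) * t) - 1 = (y - 1) - (N : R) ^ a * ((N : R) ^ j * t) := by
        rw [pow_add]; ring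
      rw [e]
      exact dvd_sub hy (dvd_mul_right _ _)
    · obtain ⟨c, hc⟩ := Polynomial.powAddExpansion y (-((N : R) ^ (a + j) * t)) N
      rw [hc]
      obtain ⟨s, hs⟩ : (N : R) ∣ y ^ (N - 1) - 1 := by
        have h1 : y - 1 ∣ y ^ (N - 1) - 1 := by
          have := sub_dvd_pow_sub_pow y 1 (N - 1)
          rwa [one_pow] at this
        exact ((dvd_pow_self (N : R) (by omega : a ≠ 0)).trans hy).trans h1
      obtain ⟨i, hi⟩ : ∃ i, a + j = i + 2 := ⟨a + j - 2, by omega⟩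
      have e1 : a + 1 + (j + 1) = (a + j) + 2 := by ring
      have e2 : a + 1 + j = (a + j) + 1 := by ring
      rw [e1]
      rw [e2] at ht
      refine ⟨-(t * s) + c * (N : R) ^ i * t ^ 2, ?_⟩
      have ht' : y ^ N = u + (N : R) ^ (a + j + 1) * t := by rw [← ht]; ring
      have hs' : y ^ (N - 1) = 1 + (N : R) * s := by rw [← hs]; ring
      rw [ht', hs', hi]
      ring

theorem root_exists (N a : ℕ) (ha : 2 ≤ a) (u : R) (hu : (N : R) ^ (a + 1) ∣ u - 1) (j : ℕ) :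
    ∃ y : R, (N : R) ^ a ∣ y - 1 ∧ (N : R) ^ j ∣ y ^ N - u := by
  obtain ⟨y, h1, h2⟩ := root_step N a ha u hu j
  exact ⟨y, h1, (pow_dvd_pow _ (by omega)).trans h2⟩

theorem root_iter (N κ : ℕ) : ∀ (u : R), (N : R) ^ (κ + 2) ∣ u - 1 → ∀ j : ℕ,
    ∃ y : R, (N : R) ^ 2 ∣ y - 1 ∧ (N : R) ^ j ∣ y ^ (N ^ κ) - u := by
  induction κ with
  | zero =>
    intro u hu j
    refine ⟨u, by simpa using hu, ?_⟩
    rw [pow_zero, pow_one, sub_self]
    exact dvd_zero _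
  | succ κ ih =>
    intro u hu j
    obtain ⟨v, hv1, hv2⟩ := root_exists N (κ + 2) (by omega) u
      (by rwa [show κ + 2 + 1 = κ + 1 + 2 by ring]) j
    obtain ⟨y, hy1, hy2⟩ := ih v hv1 j
    refine ⟨y, hy1, ?_⟩
    have e : y ^ N ^ (κ + 1) - u = ((y ^ N ^ κ) ^ N - v ^ N) + (v ^ N - u) := by
      rw [← pow_mul, ← pow_succ]; ring
    rw [e]
    exact dvd_add (hy2.trans (sub_dvd_pow_sub_pow _ _ _)) hv2

theorem crt (N l j : ℕ) (h : Nat.Coprime N l) (y1 : R) :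
    ∃ y : R, (N : R) ^ j ∣ y - y1 ∧ (l : R) ^ j ∣ y - 1 := by
  have hc : IsCoprime ((N : R) ^ j) ((l : R) ^ j) := by
    have := (Nat.isCoprime_iff_coprime.2 h).map (Int.castRingHom R)
    simp only [map_natCast] at this
    exact this.pow
  obtain ⟨a, b, hab⟩ := hc
  refine ⟨y1 * (b * (l : R) ^ j) + a * (N : R) ^ j, ⟨(1 - y1) * a, ?_⟩, ⟨(y1 - 1) * b, ?_⟩⟩
  · have : b * (l : R) ^ j = 1 - a * (N : R) ^ j := by rw [← hab]; ring
    rw [this]; ring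
  · have : a * (N : R) ^ j = 1 - b * (l : R) ^ j := by rw [← hab]; ring
    rw [this]; ring

end ring

section nf
variable {K : Type} [Field K] [NumberField K]

theorem TotPos.mul {x y : 𝓞 K} (hx : TotPos x) (hy : TotPos y) : TotPos (x * y) := by
  intro τ
  have : τ ((x * y : 𝓞 K) : K) = τ (x : K) * τ (y : K) := by rw [← map_mul]; rfl
  rw [this]
  exact mul_pos (hx τ) (hy τ)

theorem TotPos.pow {x : 𝓞 K} (hx : TotPos x) (m : ℕ) : TotPos (x ^ m) := by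
  intro τ
  have : τ ((x ^ m : 𝓞 K) : K) = τ (x : K) ^ m := by rw [← map_pow]; rfl
  rw [this]
  exact pow_pos (hx τ) m

theorem exists_pos (y : 𝓞 K) (D : ℕ) (hD : 0 < D) :
    ∃ M : ℕ, y + (M : 𝓞 K) * (D : 𝓞 K) ≠ 0 ∧ TotPos (y + (M : 𝓞 K) * (D : 𝓞 K)) := by
  classical
  obtain ⟨M0, hM0⟩ : ∃ M0 : ℕ, ∀ τ : K →+* ℝ, -τ (y : K) < M0 := by
    obtain ⟨B, hB⟩ := (Set.finite_range fun τ : K →+* ℝ => -τ (y : K)).bddAbove
    obtain ⟨n, hn⟩ := exists_nat_gt B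
    exact ⟨n, fun τ => lt_of_le_of_lt (hB ⟨τ, rfl⟩) hn⟩
  have hpos : ∀ M : ℕ, M0 ≤ M → TotPos (y + (M : 𝓞 K) * (D : 𝓞 K)) := by
    intro M hM τ
    have e : τ ((y + (M : 𝓞 K) * (D : 𝓞 K) : 𝓞 K) : K) = τ (y : K) + (M : ℝ) * D := by
      have e1 : ((y + (M : 𝓞 K) * (D : 𝓞 K) : 𝓞 K) : K) = (y : K) + (M : K) * (D : K) := by
        push_cast
        rfl
      rw [e1, map_add, map_mul, map_natCast, map_natCast]
    rw [e]
    have h1 := hM0 τ
    have h2 : (M0 : ℝ) ≤ M := by exact_mod_cast hM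
    have h3 : (1 : ℝ) ≤ D := by exact_mod_cast hD
    have h4 : (M : ℝ) * 1 ≤ (M : ℝ) * D := mul_le_mul_of_nonneg_left h3 (Nat.cast_nonneg _)
    linarith
  by_cases h0 : y + (M0 : 𝓞 K) * (D : 𝓞 K) = 0
  · refine ⟨M0 + 1, ?_, hpos _ (Nat.le_succ _)⟩
    intro h1
    have : (D : 𝓞 K) = 0 := by
      push_cast at h1
      have e : (D : 𝓞 K) = (y + ((M0 : 𝓞 K) + 1) * (D : 𝓞 K)) - (y + (M0 : 𝓞 K) * (D : 𝓞 K)) := by ring
      rw [e, h1, h0, sub_self]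
    exact hD.ne' (by exact_mod_cast this)
  · exact ⟨M0, h0, hpos _ le_rfl⟩

theorem gcd_dvd (N κ j m : ℕ) (h : ∀ r : ℕ, r.Prime → r ∣ N → ¬ r ^ (κ + 1) ∣ m) :
    Nat.gcd (N ^ j) m ∣ N ^ κ := by
  rw [Nat.dvd_iff_prime_pow_dvd_dvd]
  intro p i hp hpi
  rcases Nat.eq_zero_or_pos i with hi | hi
  · rw [hi, pow_zero]; exact one_dvd _
  · have h1 : p ∣ N := hp.dvd_of_dvd_pow
      (((dvd_pow_self p hi.ne').trans hpi).trans (Nat.gcd_dvd_left _ _))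
    have h2 : p ^ i ∣ m := hpi.trans (Nat.gcd_dvd_right _ _)
    have h3 : i ≤ κ := by
      by_contra hlt
      exact h p hp h1 ((pow_dvd_pow p (by omega)).trans h2)
    exact (pow_dvd_pow p h3).trans (pow_dvd_pow_of_dvd h1 κ)

theorem key {k : Type} [Field k] (N l j κ : ℕ) (χ : Ideal (𝓞 K) →*₀ k) (hN : 2 ≤ N) (hl : l.Prime)
    (hlN : ¬ l ∣ N) (hj : 1 ≤ j)
    (hray : ∀ x : 𝓞 K, InRay ((N * l) ^ j) x → χ (Ideal.span {x}) = 1)
    (hord : ∀ 𝔞 : Ideal (𝓞 K), χ 𝔞 ≠ 0 → ∃ m : ℕ, χ 𝔞 ^ m = 1 ∧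
      ∀ r : ℕ, r.Prime → r ∣ N → ¬ r ^ (κ + 1) ∣ m)
    (x : 𝓞 K) (hx0 : x ≠ 0) (hxp : TotPos x) (hxN : (N : 𝓞 K) ^ (κ + 2) ∣ x - 1)
    (hxl : (l : 𝓞 K) ^ j ∣ x - 1) : χ (Ideal.span {x}) = 1 := by
  have hco : Nat.Coprime N l := ((Nat.Prime.coprime_iff_not_dvd hl).2 hlN).symm
  have hcR : IsCoprime ((N : 𝓞 K) ^ j) ((l : 𝓞 K) ^ j) := by
    have := (Nat.isCoprime_iff_coprime.2 hco).map (Int.castRingHom (𝓞 K))
    simp only [map_natCast] at this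
    exact this.pow
  obtain ⟨y1, hy1, hy1x⟩ := root_iter N κ x hxN j
  obtain ⟨y2, hy2, hy2l⟩ := crt N l j hco y1
  have hD : 0 < (N * l) ^ j := pow_pos (Nat.mul_pos (by omega) hl.pos) j
  obtain ⟨M, hM0, hMp⟩ := exists_pos y2 ((N * l) ^ j) hD
  set y : 𝓞 K := y2 + (M : 𝓞 K) * (((N * l) ^ j : ℕ) : 𝓞 K) with hy
  have hcast : (((N * l) ^ j : ℕ) : 𝓞 K) = (N : 𝓞 K) ^ j * (l : 𝓞 K) ^ j := by
    push_cast; rw [mul_pow]
  have hyN : (N : 𝓞 K) ^ j ∣ y - y1 := by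
    have e : y - y1 = (y2 - y1) + (N : 𝓞 K) ^ j * ((l : 𝓞 K) ^ j * M) := by
      rw [hy, hcast]; ring
    rw [e]
    exact dvd_add hy2 (dvd_mul_right _ _)
  have hyl : (l : 𝓞 K) ^ j ∣ y - 1 := by
    have e : y - 1 = (y2 - 1) + (l : 𝓞 K) ^ j * ((N : 𝓞 K) ^ j * M) := by
      rw [hy, hcast]; ring
    rw [e]
    exact dvd_add hy2l (dvd_mul_right _ _)
  have hy1' : (N : 𝓞 K) ∣ y - 1 := by
    have e : y - 1 = (y - y1) + (y1 - 1) := by ring
    rw [e]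
    exact dvd_add ((dvd_pow_self _ (by omega)).trans hyN) ((dvd_pow_self _ two_ne_zero).trans hy1)
  -- divisibility modulo `(N l) ^ j`
  have hcomb : ∀ w : 𝓞 K, (N : 𝓞 K) ^ j ∣ w → (l : 𝓞 K) ^ j ∣ w → (((N * l) ^ j : ℕ) : 𝓞 K) ∣ w := by
    intro w h1 h2
    rw [hcast]
    exact hcR.mul_dvd h1 h2
  have hpowl : ∀ m : ℕ, (l : 𝓞 K) ^ j ∣ y ^ m - 1 := by
    intro m
    have := sub_dvd_pow_sub_pow y 1 m
    rw [one_pow] at this
    exact hyl.trans this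
  have hA : (((N * l) ^ j : ℕ) : 𝓞 K) ∣ y ^ N ^ κ - x := by
    apply hcomb
    · have e : y ^ N ^ κ - x = (y ^ N ^ κ - y1 ^ N ^ κ) + (y1 ^ N ^ κ - x) := by ring
      rw [e]
      exact dvd_add (hyN.trans (sub_dvd_pow_sub_pow _ _ _)) hy1x
    · have e : y ^ N ^ κ - x = (y ^ N ^ κ - 1) - (x - 1) := by ring
      rw [e]
      exact dvd_sub (hpowl _) hxl
  have hB : (((N * l) ^ j : ℕ) : 𝓞 K) ∣ y ^ N ^ j - 1 := by
    apply hcomb
    · have := dvd_sub_pow_of_dvd_sub hy1' j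
      rw [one_pow] at this
      exact (pow_dvd_pow _ (Nat.le_succ j)).trans this
    · exact hpowl _
  have hspow : ∀ m : ℕ, χ (Ideal.span {y ^ m}) = χ (Ideal.span {y}) ^ m := by
    intro m
    rw [← map_pow, Ideal.span_singleton_pow]
  have hz1 : χ (Ideal.span {y}) ^ N ^ j = 1 := by
    rw [← hspow]
    exact hray _ ⟨pow_ne_zero _ hM0, hB, TotPos.pow hMp _⟩
  have hNj : N ^ j ≠ 0 := pow_ne_zero _ (by omega)
  have hz0 : χ (Ideal.span {y}) ≠ 0 := by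
    intro h0
    rw [h0, zero_pow hNj] at hz1
    exact zero_ne_one hz1
  obtain ⟨m, hm1, hm2⟩ := hord _ hz0
  have hzκ : χ (Ideal.span {y}) ^ N ^ κ = 1 := by
    have h1 : orderOf (χ (Ideal.span {y})) ∣ N ^ κ :=
      (Nat.dvd_gcd (orderOf_dvd_of_pow_eq_one hz1) (orderOf_dvd_of_pow_eq_one hm1)).trans
        (gcd_dvd N κ j m hm2)
    exact orderOf_dvd_iff_pow_eq_one.1 h1
  obtain ⟨q, hq⟩ : ∃ q, N ^ j = q + 1 := ⟨N ^ j - 1, by omega⟩
  have hC : InRay ((N * l) ^ j) (x * y ^ (N ^ κ * q)) := by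
    refine ⟨mul_ne_zero hx0 (pow_ne_zero _ hM0), ?_, TotPos.mul hxp (TotPos.pow hMp _)⟩
    have e : x * y ^ (N ^ κ * q) - 1 =
        ((y ^ N ^ j) ^ N ^ κ - 1) - (y ^ N ^ κ - x) * y ^ (N ^ κ * q) := by
      rw [← pow_mul, hq, show (q + 1) * N ^ κ = N ^ κ + N ^ κ * q by ring, pow_add]
      ring
    rw [e]
    refine dvd_sub ?_ (hA.mul_right _)
    have := sub_dvd_pow_sub_pow (y ^ N ^ j) 1 (N ^ κ)
    rw [one_pow] at this
    exact hB.trans this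
  have hD2 := hray _ hC
  rw [← Ideal.span_singleton_mul_span_singleton, map_mul, hspow, pow_mul, hzκ, one_pow, mul_one] at hD2
  exact hD2

end nf

theorem main : Pool.Agent.H500.AS.S_Mod := by
  intro K _ _ N l e κ k _ χ hN hl hlN hlk hsupp hray hord
  constructor
  · intro 𝔞 h𝔞
    rw [hsupp 𝔞 h𝔞]
    push_cast
    rw [← Ideal.span_singleton_mul_span_singleton, ← Ideal.span_singleton_mul_span_singleton,
      IsCoprime.mul_right_iff, IsCoprime.mul_right_iff, ← Ideal.span_singleton_pow,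
      IsCoprime.pow_right_iff (by omega)]
  · intro x hx
    have hdx := hx.2.1
    push_cast at hdx
    have hray' : ∀ x : 𝓞 K, InRay ((N * l) ^ (e + 1)) x → χ (Ideal.span {x}) = 1 := by
      intro x hx
      refine hray x ⟨hx.1, ?_, hx.2.2⟩
      refine dvd_trans ?_ hx.2.1
      exact_mod_cast Nat.cast_dvd_cast (α := 𝓞 K) (pow_dvd_pow (N * l) (Nat.le_succ e))
    have : Fact l.Prime := ⟨hl⟩
    have : CharP k l := (CharP.charP_iff_prime_eq_zero hl).2 hlk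
    have hxl : (l : 𝓞 K) ∣ x - 1 := (dvd_mul_left _ _).trans hdx
    have hxN : (N : 𝓞 K) ^ (κ + 2) ∣ x - 1 := (dvd_mul_right _ _).trans hdx
    have h1 : χ (Ideal.span {x ^ l ^ e}) = 1 := by
      apply key N l (e + 1) κ χ hN hl hlN (by omega) hray' hord _ (pow_ne_zero _ hx.1)
        (TotPos.pow hx.2.2 _)
      · have := sub_dvd_pow_sub_pow x 1 (l ^ e)
        rw [one_pow] at this
        exact hxN.trans this
      · have := dvd_sub_pow_of_dvd_sub hxl e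
        rwa [one_pow] at this
    have h2 : χ (Ideal.span {x}) ^ l ^ e = 1 := by
      rw [← map_pow, Ideal.span_singleton_pow]
      exact h1
    have h3 : (χ (Ideal.span {x}) - 1) ^ l ^ e = 0 := by
      rw [sub_pow_char_pow, h2, one_pow, sub_self]
    exact sub_eq_zero.1 (pow_eq_zero_iff (pow_ne_zero _ hl.ne_zero) |>.1 h3)

end Pool.Agent.H662.AS.Mod
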